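import Mathlib

/-! An inequality for the family of the unions of the members of a family and of a down-set. -/

set_option autoImplicit false

namespace Pool.Agent.N371.CS

open Finset
open scoped FinsetFamily

variable {α : Type*} [DecidableEq α]

theorem nonMember_sups (a : α) (A Q : Finset (Finset α)) :
    (A ⊻ Q).nonMemberSubfamily a = A.nonMemberSubfamily a ⊻ Q.nonMemberSubfamily a := by
  ext t
  simp only [mem_nonMemberSubfamily, mem_sups]
  constructor
  · rintro ⟨⟨c, hc, d, hd, rfl⟩, ha⟩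
    rw [sup_eq_union, mem_union, not_or] at ha
    exact ⟨c, ⟨hc, ha.1⟩, d, ⟨hd, ha.2⟩, rfl⟩
  · rintro ⟨c, ⟨hc, h1⟩, d, ⟨hd, h2⟩, rfl⟩
    refine ⟨⟨c, hc, d, hd, rfl⟩, ?_⟩
    rw [sup_eq_union, mem_union, not_or]
    exact ⟨h1, h2⟩

theorem member_sups_subset (a : α) (A Q : Finset (Finset α))
    (hQ : IsLowerSet (Q : Set (Finset α))) :
    (A ⊻ Q).memberSubfamily a ⊆
      (A.memberSubfamily a ⊻ Q.nonMemberSubfamily a) ∪
        (A.nonMemberSubfamily a ⊻ Q.memberSubfamily a) := by
  intro t ht
  rw [mem_memberSubfamily, mem_sups] at ht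
  obtain ⟨⟨c, hc, d, hd, hcd⟩, hat⟩ := ht
  rw [mem_union, mem_sups, mem_sups]
  by_cases hac : a ∈ c
  · left
    refine ⟨c.erase a, ?_, d.erase a, ?_, ?_⟩
    · rw [mem_memberSubfamily, insert_erase hac]
      exact ⟨hc, notMem_erase a c⟩
    · rw [mem_nonMemberSubfamily]
      exact ⟨hQ (erase_subset a d) hd, notMem_erase a d⟩
    · ext z
      have hz : z ∈ c ⊔ d ↔ z ∈ insert a t := by rw [hcd]
      rw [sup_eq_union, mem_union, mem_insert] at hz
      rw [sup_eq_union, mem_union, mem_erase, mem_erase]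
      by_cases hza : z = a
      · subst hza
        simp [hat]
      · simp only [hza, false_or] at hz
        simp only [ne_eq, hza, not_false_eq_true, true_and]
        exact hz
  · right
    have had : a ∈ d := by
      have : a ∈ c ⊔ d := by rw [hcd]; exact mem_insert_self a t
      rw [sup_eq_union, mem_union] at this
      exact this.resolve_left hac
    refine ⟨c, ?_, d.erase a, ?_, ?_⟩
    · rw [mem_nonMemberSubfamily]
      exact ⟨hc, hac⟩
    · rw [mem_memberSubfamily, insert_erase had]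
      exact ⟨hd, notMem_erase a d⟩
    · ext z
      have hz : z ∈ c ⊔ d ↔ z ∈ insert a t := by rw [hcd]
      rw [sup_eq_union, mem_union, mem_insert] at hz
      rw [sup_eq_union, mem_union, mem_erase]
      by_cases hza : z = a
      · subst hza
        simp [hat, hac]
      · simp only [hza, false_or] at hz
        simp only [ne_eq, hza, not_false_eq_true, true_and]
        exact hz

/-- The number of unions is bounded by the three sections. -/
theorem card_sups_split (a : α) (A Q : Finset (Finset α))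
    (hQ : IsLowerSet (Q : Set (Finset α))) :
    (A ⊻ Q).card ≤ (A.nonMemberSubfamily a ⊻ Q.nonMemberSubfamily a).card +
      ((A.memberSubfamily a ⊻ Q.nonMemberSubfamily a).card +
        (A.nonMemberSubfamily a ⊻ Q.memberSubfamily a).card) := by
  rw [← card_memberSubfamily_add_card_nonMemberSubfamily a (A ⊻ Q), nonMember_sups, add_comm]
  exact Nat.add_le_add_left ((card_le_card (member_sups_subset a A Q hQ)).trans
    (card_union_le _ _)) _

theorem sups_subset_powerset {s : Finset α} {A Q : Finset (Finset α)} (hA : A ⊆ s.powerset)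
    (hQ : Q ⊆ s.powerset) : A ⊻ Q ⊆ s.powerset := by
  rw [sups_subset_iff]
  intro c hc d hd
  rw [mem_powerset, sup_eq_union]
  exact union_subset (mem_powerset.1 (hA hc)) (mem_powerset.1 (hQ hd))

theorem sections_subset {s : Finset α} {a : α} {A : Finset (Finset α)}
    (hA : A ⊆ (insert a s).powerset) :
    A.nonMemberSubfamily a ⊆ s.powerset ∧ A.memberSubfamily a ⊆ s.powerset := by
  constructor
  · intro t ht
    rw [mem_nonMemberSubfamily] at ht
    rw [mem_powerset]
    intro z hz
    have h1 := mem_powerset.1 (hA ht.1) hz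
    rw [mem_insert] at h1
    rcases h1 with h1 | h1
    · subst h1; exact absurd hz ht.2
    · exact h1
  · intro t ht
    rw [mem_memberSubfamily] at ht
    rw [mem_powerset]
    intro z hz
    have h1 := mem_powerset.1 (hA ht.1) (mem_insert_of_mem hz)
    rw [mem_insert] at h1
    rcases h1 with h1 | h1
    · subst h1; exact absurd hz ht.2
    · exact h1

/-! ### arithmetic -/

theorem arith1 {M K a0 a1 q0 q1 c c1 c2 : ℤ} (hM : 1 ≤ M) (hK : 1 ≤ K)
    (ha1 : 0 ≤ a1) (hq1 : 0 ≤ q1)
    (hc : c ≤ M * K + (c1 + c2)) (hc' : c ≤ 2 * (M * K)) (h1 : c1 ≤ a1 * q0) (h2 : c2 ≤ a0 * q1)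
    (hq : q1 ≤ q0) (hM0 : M ≤ a0) (hK0 : K ≤ q0) :
    c + M * K ≤ (a1 + a0) * K + (q1 + q0) * M := by
  by_cases h3 : M < a1
  · nlinarith
  · by_cases h4 : K < q1
    · nlinarith
    · push Not at h3 h4
      nlinarith [mul_nonneg (sub_nonneg.2 hM0) (sub_nonneg.2 h4),
        mul_nonneg (sub_nonneg.2 hK0) (sub_nonneg.2 h3)]

theorem arith3 {M K a0 a1 q0 q1 c c0 c1 c2 : ℤ}
    (ha1 : 0 ≤ a1) (hq1 : 0 ≤ q1)
    (hc : c ≤ c0 + (c1 + c2)) (h0 : c0 ≤ a0 * q0) (h1 : c1 ≤ a1 * q0) (h2 : c2 ≤ a0 * q1)
    (hM0 : a0 < M) (hK0 : q0 < K) (hor : M ≤ a1 + a0 ∨ K ≤ q1 + q0) :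
    c + M * K ≤ (a1 + a0) * K + (q1 + q0) * M := by
  have key : 0 ≤ a1 * q1 - (a1 + a0 - M) * (q1 + q0 - K) := by
    by_cases h3 : M ≤ a1 + a0
    · by_cases h4 : K ≤ q1 + q0
      · have h5 : a1 + a0 - M ≤ a1 := by linarith
        have h6 : q1 + q0 - K ≤ q1 := by linarith
        have h7 : (a1 + a0 - M) * (q1 + q0 - K) ≤ a1 * q1 :=
          mul_le_mul h5 h6 (by linarith) ha1
        linarith
      · push Not at h4
        nlinarith [mul_nonneg ha1 hq1]
    · rcases hor with h | h
      · exact absurd h h3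
      · push Not at h3
        nlinarith [mul_nonneg ha1 hq1]
  nlinarith

/-- **The inequality.** For any family `A` and any down-set `Q` of subsets of a set with `x + y + 1`
elements, `|A ⊻ Q| ≤ 2 ^ y |A| + 2 ^ x |Q| - 2 ^ (x + y)` if `|A| ≥ 2 ^ x` or `|Q| ≥ 2 ^ y`. -/
theorem key (s : Finset α) : ∀ (x y : ℕ), s.card = x + y + 1 → ∀ (A Q : Finset (Finset α)),
    A ⊆ s.powerset → Q ⊆ s.powerset → IsLowerSet (Q : Set (Finset α)) →
    (2 ^ x ≤ A.card ∨ 2 ^ y ≤ Q.card) →
    ((A ⊻ Q).card : ℤ) + 2 ^ x * 2 ^ y ≤ A.card * 2 ^ y + Q.card * 2 ^ x := by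
  induction s using Finset.induction_on with
  | empty => intro x y h; simp at h
  | insert a s has ih =>
    intro x y hxy A Q hA hQ hlow hor
    rw [card_insert_of_notMem has] at hxy
    have hs : s.card = x + y := by omega
    have hlow0 : IsLowerSet ((Q.nonMemberSubfamily a : Finset (Finset α)) : Set (Finset α)) :=
      hlow.nonMemberSubfamily
    have hlow1 : IsLowerSet ((Q.memberSubfamily a : Finset (Finset α)) : Set (Finset α)) :=
      hlow.memberSubfamily
    have hq : (Q.memberSubfamily a).card ≤ (Q.nonMemberSubfamily a).card :=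
      card_le_card hlow.memberSubfamily_subset_nonMemberSubfamily
    have hsplit := card_sups_split a A Q hlow
    have hcA := card_memberSubfamily_add_card_nonMemberSubfamily a A
    have hcQ := card_memberSubfamily_add_card_nonMemberSubfamily a Q
    obtain ⟨hA0, hA1⟩ := sections_subset hA
    obtain ⟨hQ0, hQ1⟩ := sections_subset hQ
    have hfull : (A ⊻ Q).card ≤ 2 * 2 ^ (x + y) := by
      have h := card_le_card (sups_subset_powerset hA hQ)
      rw [card_powerset, card_insert_of_notMem has, hs, pow_succ] at h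
      omega
    have hzero : (A.nonMemberSubfamily a ⊻ Q.nonMemberSubfamily a).card ≤ 2 ^ (x + y) := by
      have h := card_le_card (sups_subset_powerset hA0 hQ0)
      rwa [card_powerset, hs] at h
    have hone : (A.memberSubfamily a ⊻ Q.nonMemberSubfamily a).card ≤ 2 ^ (x + y) := by
      have h := card_le_card (sups_subset_powerset hA1 hQ0)
      rwa [card_powerset, hs] at h
    have p00 := card_sups_le (A.nonMemberSubfamily a) (Q.nonMemberSubfamily a)
    have p10 := card_sups_le (A.memberSubfamily a) (Q.nonMemberSubfamily a)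
    have p01 := card_sups_le (A.nonMemberSubfamily a) (Q.memberSubfamily a)
    -- the induction hypothesis in the form needed
    have ih' := fun (x' y' : ℕ) (h : s.card = x' + y' + 1) => ih x' y' h
    generalize hA0' : A.nonMemberSubfamily a = A0 at *
    generalize hA1' : A.memberSubfamily a = A1 at *
    generalize hQ0' : Q.nonMemberSubfamily a = Q0 at *
    generalize hQ1' : Q.memberSubfamily a = Q1 at *
    rw [← hcA, ← hcQ]
    rw [← hcA, ← hcQ] at hor
    have hM1 : (1 : ℤ) ≤ 2 ^ x := one_le_pow₀ (by norm_num)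
    have hK1 : (1 : ℤ) ≤ 2 ^ y := one_le_pow₀ (by norm_num)
    have e1 : ((A ⊻ Q).card : ℤ) ≤ (A0 ⊻ Q0).card + ((A1 ⊻ Q0).card + (A0 ⊻ Q1).card) := by
      exact_mod_cast hsplit
    have e2 : ((A ⊻ Q).card : ℤ) ≤ 2 * (2 ^ x * 2 ^ y) := by
      rw [← pow_add]; exact_mod_cast hfull
    have e3 : ((A0 ⊻ Q0).card : ℤ) ≤ 2 ^ x * 2 ^ y := by
      rw [← pow_add]; exact_mod_cast hzero
    have e3' : ((A1 ⊻ Q0).card : ℤ) ≤ 2 ^ x * 2 ^ y := by
      rw [← pow_add]; exact_mod_cast hone
    have e4 : ((A0 ⊻ Q0).card : ℤ) ≤ A0.card * Q0.card := by exact_mod_cast p00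
    have e5 : ((A1 ⊻ Q0).card : ℤ) ≤ A1.card * Q0.card := by exact_mod_cast p10
    have e6 : ((A0 ⊻ Q1).card : ℤ) ≤ A0.card * Q1.card := by exact_mod_cast p01
    have e7 : (Q1.card : ℤ) ≤ Q0.card := by exact_mod_cast hq
    have n1 : (0 : ℤ) ≤ A0.card := by positivity
    have n2 : (0 : ℤ) ≤ A1.card := by positivity
    have n3 : (0 : ℤ) ≤ Q0.card := by positivity
    have n4 : (0 : ℤ) ≤ Q1.card := by positivity
    push_cast
    by_cases hM0 : 2 ^ x ≤ A0.card
    · have hM0' : (2 : ℤ) ^ x ≤ A0.card := by exact_mod_cast hM0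
      by_cases hK0 : 2 ^ y ≤ Q0.card
      · have hK0' : (2 : ℤ) ^ y ≤ Q0.card := by exact_mod_cast hK0
        exact arith1 hM1 hK1 n2 n4 (by linarith) e2 e5 e6 e7 hM0' hK0'
      · push Not at hK0
        rcases Nat.eq_zero_or_pos y with hy | hy
        · subst hy
          have hQ00 : Q0.card = 0 := by simpa using hK0
          have hQ10 : Q1.card = 0 := by omega
          rw [hQ00] at e4 e5
          rw [hQ10] at e6
          rw [hQ00, hQ10]
          push_cast at e4 e5 e6 ⊢
          nlinarith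
        · obtain ⟨y', rfl⟩ : ∃ y', y = y' + 1 := ⟨y - 1, by omega⟩
          have hs' : s.card = x + y' + 1 := by omega
          have i1 := ih' x y' hs' A0 Q0 hA0 hQ0 hlow0 (Or.inl hM0)
          have i2 := ih' x y' hs' A0 Q1 hA0 hQ1 hlow1 (Or.inl hM0)
          have hK0' : (Q0.card : ℤ) ≤ 2 ^ (y' + 1) := by exact_mod_cast hK0.le
          have h3 : (A1.card : ℤ) * Q0.card ≤ A1.card * 2 ^ (y' + 1) :=
            mul_le_mul_of_nonneg_left hK0' n2
          rw [pow_succ] at *
          nlinarith
    · push Not at hM0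
      have hM0' : (A0.card : ℤ) ≤ 2 ^ x := by exact_mod_cast hM0.le
      by_cases hK0 : 2 ^ y ≤ Q0.card
      · have hK0' : (2 : ℤ) ^ y ≤ Q0.card := by exact_mod_cast hK0
        rcases Nat.eq_zero_or_pos x with hx | hx
        · subst hx
          have hA00 : A0.card = 0 := by simpa using hM0
          rw [hA00] at e4 e6
          rw [hA00]
          push_cast at e3' e4 e5 e6 ⊢
          rcases Nat.lt_or_ge A1.card 2 with h2 | h2
          · interval_cases h : A1.card
            · push_cast at e5 ⊢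
              nlinarith
            · push_cast at e5 ⊢
              nlinarith
          · have h2' : (2 : ℤ) ≤ A1.card := by exact_mod_cast h2
            nlinarith
        · obtain ⟨x', rfl⟩ : ∃ x', x = x' + 1 := ⟨x - 1, by omega⟩
          have hs' : s.card = x' + y + 1 := by omega
          have i1 := ih' x' y hs' A0 Q0 hA0 hQ0 hlow0 (Or.inr hK0)
          have i2 := ih' x' y hs' A1 Q0 hA1 hQ0 hlow0 (Or.inr hK0)
          have h3 : (A0.card : ℤ) * Q1.card ≤ 2 ^ (x' + 1) * Q1.card :=
            mul_le_mul_of_nonneg_right hM0' n4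
          rw [pow_succ] at *
          nlinarith
      · push Not at hK0
        have hM0'' : (A0.card : ℤ) < 2 ^ x := by exact_mod_cast hM0
        have hK0'' : (Q0.card : ℤ) < 2 ^ y := by exact_mod_cast hK0
        refine arith3 n2 n4 e1 e4 e5 e6 hM0'' hK0'' ?_
        rcases hor with h | h
        · left; exact_mod_cast h
        · right; exact_mod_cast h

end Pool.Agent.N371.CS
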