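import Pool.Agent.N371.CS.Key

/-! The upper bound and the construction for cross-Sperner families. -/

set_option autoImplicit false

namespace Pool.Agent.N371.CS

open Finset
open scoped FinsetFamily

theorem arith_final {m a b p q c : ℤ} (hm : 1 ≤ m) (ha : 0 ≤ a) (hb : 0 ≤ b)
    (hbq : b ≤ q) (hap : a ≤ p)
    (h1 : c + (a + q) ≤ 2 * m ^ 2) (h1' : c + (b + p) ≤ 2 * m ^ 2) (h2 : c ≤ a * b)
    (h3 : m ≤ a ∨ m ≤ q → c + a + m * m ≤ a * m + q * m)
    (h4 : m ≤ b ∨ m ≤ p → c + b + m * m ≤ b * m + p * m) :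
    c ≤ 2 * m ^ 2 - 2 * m - m + 1 := by
  by_contra hcon
  have hc : 2 * m ^ 2 - 3 * m + 2 ≤ c := by
    have : 2 * m ^ 2 - 2 * m - m + 1 < c := not_le.1 hcon
    linarith
  have side : ∀ a b q : ℤ, 0 ≤ a → 0 ≤ b → b ≤ q → c + (a + q) ≤ 2 * m ^ 2 → c ≤ a * b →
      (m ≤ a ∨ m ≤ q → c + a + m * m ≤ a * m + q * m) → a ≤ m - 2 := by
    intro a b q ha hb hbq h1 h2 h3
    by_cases hor : m ≤ a ∨ m ≤ q
    · have h5 := h3 hor
      have h6 : (a + q) * m ≤ (2 * m ^ 2 - c) * m :=
        mul_le_mul_of_nonneg_right (by linarith) (by linarith)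
      have h7 : (2 * m ^ 2 - 3 * m + 2) * (m + 1) ≤ c * (m + 1) :=
        mul_le_mul_of_nonneg_right hc (by linarith)
      nlinarith
    · push Not at hor
      have h5 : a ≤ m - 1 := by linarith [hor.1]
      have h6 : b ≤ m - 1 := by linarith [hor.2]
      have h7 : a * b ≤ (m - 1) * (m - 1) := mul_le_mul h5 h6 hb (by linarith)
      nlinarith
  have ha2 := side a b q ha hb hbq h1 h2 h3
  have hb2 := side b a p hb ha hap h1' (by rw [mul_comm]; exact h2) h4
  have h8 : a * b ≤ (m - 2) * (m - 2) := mul_le_mul ha2 hb2 hb (by linarith)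
  nlinarith

variable {n : ℕ}

/-- The down-set generated by the complements of the members of a family. -/
def dn (A : Finset (Finset (Fin n))) : Finset (Finset (Fin n)) :=
  univ.filter fun t => ∃ a ∈ A, t ⊆ aᶜ

theorem mem_dn {A : Finset (Finset (Fin n))} {t : Finset (Fin n)} :
    t ∈ dn A ↔ ∃ a ∈ A, t ⊆ aᶜ := by simp [dn]

theorem dn_lower (A : Finset (Finset (Fin n))) :
    IsLowerSet ((dn A : Finset (Finset (Fin n))) : Set (Finset (Fin n))) := by
  intro s t hts hs
  rw [mem_coe, mem_dn] at hs ⊢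
  obtain ⟨a, ha, h⟩ := hs
  exact ⟨a, ha, hts.trans h⟩

theorem empty_mem_dn {A : Finset (Finset (Fin n))} (hA : A.Nonempty) : ∅ ∈ dn A := by
  obtain ⟨a, ha⟩ := hA
  exact mem_dn.2 ⟨a, ha, empty_subset _⟩

/-- `c' + a ≤ |(P \ Q) ⊻ Q|` -/
theorem strong_add_le (P Q : Finset (Finset (Fin n)))
    (hP : IsLowerSet (P : Set (Finset (Fin n)))) (h0 : ∅ ∈ Q) :
    ((P \ Q) ⊻ (Q \ P)).card + (P \ Q).card ≤ ((P \ Q) ⊻ Q).card := by
  rw [← card_union_of_disjoint]
  · refine card_le_card (union_subset (sups_subset_left sdiff_subset) ?_)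
    intro t ht
    rw [mem_sups]
    exact ⟨t, ht, ∅, h0, by simp⟩
  · rw [Finset.disjoint_left]
    intro t ht htP
    rw [mem_sups] at ht
    obtain ⟨c, _, d, hd, rfl⟩ := ht
    rw [mem_sdiff] at hd htP
    exact hd.2 (hP (show d ≤ c ⊔ d from le_sup_right) htP.1)

/-- `c' + a + |Q| ≤ 2 ^ n` -/
theorem strong_add_le_two_pow (P Q : Finset (Finset (Fin n)))
    (hP : IsLowerSet (P : Set (Finset (Fin n)))) (hQ : IsLowerSet (Q : Set (Finset (Fin n)))) :
    ((P \ Q) ⊻ (Q \ P)).card + ((P \ Q).card + Q.card) ≤ 2 ^ n := by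
  have h1 : ((P \ Q) ∪ Q).card = (P \ Q).card + Q.card :=
    card_union_of_disjoint sdiff_disjoint
  rw [← h1, ← card_union_of_disjoint]
  · calc _ ≤ (univ : Finset (Finset (Fin n))).card := card_le_card (subset_univ _)
      _ = 2 ^ n := by simp
  · rw [Finset.disjoint_left]
    intro t ht htu
    rw [mem_sups] at ht
    obtain ⟨c, hc, d, hd, rfl⟩ := ht
    rw [mem_sdiff] at hc hd
    rw [mem_union, mem_sdiff] at htu
    rcases htu with htu | htu
    · exact hd.2 (hP (show d ≤ c ⊔ d from le_sup_right) htu.1)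
    · exact hc.2 (hQ (show c ≤ c ⊔ d from le_sup_left) htu)

theorem strong_bound (d : ℕ) (P Q : Finset (Finset (Fin (2 * d + 1))))
    (hP : IsLowerSet (P : Set (Finset (Fin (2 * d + 1)))))
    (hQ : IsLowerSet (Q : Set (Finset (Fin (2 * d + 1))))) (hP0 : ∅ ∈ P) (hQ0 : ∅ ∈ Q) :
    (((P \ Q) ⊻ (Q \ P)).card : ℤ) ≤ 2 ^ (2 * d + 1) - 2 ^ (d + 1) - 2 ^ d + 1 := by
  have hpow : (2 : ℤ) ^ (2 * d + 1) = 2 * (2 ^ d) ^ 2 := by
    rw [← pow_mul, pow_succ]; ring
  have hpow' : (2 : ℤ) ^ (d + 1) = 2 * 2 ^ d := by rw [pow_succ]; ring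
  have hcard : (univ : Finset (Fin (2 * d + 1))).card = d + d + 1 := by
    rw [card_univ, Fintype.card_fin]; ring
  have hsub : ∀ A : Finset (Finset (Fin (2 * d + 1))), A ⊆ (univ : Finset _).powerset := by
    intro A; simp
  have k1 := fun h => key (univ : Finset (Fin (2 * d + 1))) d d hcard (P \ Q) Q (hsub _) (hsub _)
    hQ h
  have k2 := fun h => key (univ : Finset (Fin (2 * d + 1))) d d hcard (Q \ P) P (hsub _) (hsub _)
    hP h
  have s1 := strong_add_le P Q hP hQ0
  have s2 := strong_add_le Q P hQ hP0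
  rw [sups_comm (s := Q \ P) (t := P \ Q)] at s2
  have t1 := strong_add_le_two_pow P Q hP hQ
  have t2 := strong_add_le_two_pow Q P hQ hP
  rw [sups_comm (s := Q \ P) (t := P \ Q)] at t2
  have u := card_sups_le (P \ Q) (Q \ P)
  have hm : (1 : ℤ) ≤ 2 ^ d := one_le_pow₀ (by norm_num)
  rw [hpow, hpow']
  have t1' : (((P \ Q) ⊻ (Q \ P)).card : ℤ) + ((P \ Q).card + Q.card) ≤ 2 * (2 ^ d) ^ 2 := by
    rw [← hpow]; exact_mod_cast t1
  have t2' : (((P \ Q) ⊻ (Q \ P)).card : ℤ) + ((Q \ P).card + P.card) ≤ 2 * (2 ^ d) ^ 2 := by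
    rw [← hpow]; exact_mod_cast t2
  have s1' : (((P \ Q) ⊻ (Q \ P)).card : ℤ) + (P \ Q).card ≤ ((P \ Q) ⊻ Q).card := by
    exact_mod_cast s1
  have s2' : (((P \ Q) ⊻ (Q \ P)).card : ℤ) + (Q \ P).card ≤ ((Q \ P) ⊻ P).card := by
    exact_mod_cast s2
  refine arith_final (m := 2 ^ d) (a := (P \ Q).card) (b := (Q \ P).card) (p := P.card)
    (q := Q.card) hm (by positivity) (by positivity) ?_ ?_ t1' t2' ?_ ?_ ?_
  · exact_mod_cast card_le_card sdiff_subset
  · exact_mod_cast card_le_card sdiff_subset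
  · exact_mod_cast u
  · intro h
    have := k1 (by rcases h with h | h
                   · left; exact_mod_cast h
                   · right; exact_mod_cast h)
    linarith
  · intro h
    have := k2 (by rcases h with h | h
                   · left; exact_mod_cast h
                   · right; exact_mod_cast h)
    linarith

/-- Upper bound for cross-Sperner families. -/
theorem upper (d : ℕ) (A B : Finset (Finset (Fin (2 * d + 1))))
    (h : ∀ a ∈ A, ∀ b ∈ B, ¬ a ⊆ b ∧ ¬ b ⊆ a) :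
    ((A ⊼ B).card : ℤ) ≤ 2 ^ (2 * d + 1) - 2 ^ (d + 1) - 2 ^ d + 1 := by
  by_cases hne : A.Nonempty ∧ B.Nonempty
  · obtain ⟨hA, hB⟩ := hne
    refine le_trans ?_ (strong_bound d (dn A) (dn B) (dn_lower A) (dn_lower B)
      (empty_mem_dn hA) (empty_mem_dn hB))
    have hinj : Function.Injective (fun t : Finset (Fin (2 * d + 1)) => tᶜ) := compl_injective
    rw [← card_image_of_injective (A ⊼ B) hinj]
    norm_cast
    refine card_le_card ?_
    intro t ht
    rw [mem_image] at ht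
    obtain ⟨s, hs, rfl⟩ := ht
    rw [mem_infs] at hs
    obtain ⟨a, ha, b, hb, rfl⟩ := hs
    rw [mem_sups]
    refine ⟨aᶜ, ?_, bᶜ, ?_, ?_⟩
    · rw [mem_sdiff, mem_dn, mem_dn]
      refine ⟨⟨a, ha, subset_rfl⟩, ?_⟩
      rintro ⟨b', hb', hab⟩
      exact (h a ha b' hb').2 (compl_subset_compl.1 hab)
    · rw [mem_sdiff, mem_dn, mem_dn]
      refine ⟨⟨b, hb, subset_rfl⟩, ?_⟩
      rintro ⟨a', ha', hab⟩
      exact (h a' ha' b hb).1 (compl_subset_compl.1 hab)
    · rw [compl_inf]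
  · have h0 : A ⊼ B = ∅ := by
      rw [infs_eq_empty]
      by_cases hA : A = ∅
      · exact Or.inl hA
      · right
        by_contra hB
        exact hne ⟨nonempty_iff_ne_empty.2 hA, nonempty_iff_ne_empty.2 hB⟩
    rw [h0]
    have hm : (1 : ℤ) ≤ 2 ^ d := one_le_pow₀ (by norm_num)
    have hpow : (2 : ℤ) ^ (2 * d + 1) = 2 * (2 ^ d) ^ 2 := by
      rw [← pow_mul, pow_succ]; ring
    have hpow' : (2 : ℤ) ^ (d + 1) = 2 * 2 ^ d := by rw [pow_succ]; ring
    rw [hpow, hpow']
    simp only [card_empty, Nat.cast_zero]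
    nlinarith

/-- The construction. -/
theorem construction (d : ℕ) : ∃ A B : Finset (Finset (Fin (2 * d + 1))),
    (∀ a ∈ A, ∀ b ∈ B, ¬ a ⊆ b ∧ ¬ b ⊆ a) ∧
    ((A ⊼ B).card : ℤ) = 2 ^ (2 * d + 1) - 2 ^ (d + 1) - 2 ^ d + 1 := by
  classical
  obtain ⟨X, hX⟩ : ∃ X : Finset (Fin (2 * d + 1)), X.card = d := by
    obtain ⟨X, _, hX⟩ := Finset.exists_subset_card_eq (s := (univ : Finset (Fin (2 * d + 1))))
      (n := d) (by rw [card_univ, Fintype.card_fin]; omega)
    exact ⟨X, hX⟩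
  have hY : (Xᶜ).card = d + 1 := by
    rw [card_compl, Fintype.card_fin, hX]; omega
  refine ⟨X.ssubsets.image (fun s => s ∪ Xᶜ), (Xᶜ).ssubsets.image (fun s => X ∪ s), ?_, ?_⟩
  · intro a ha b hb
    rw [mem_image] at ha hb
    obtain ⟨s, hs, rfl⟩ := ha
    obtain ⟨t, ht, rfl⟩ := hb
    rw [mem_ssubsets] at hs ht
    constructor
    · intro hst
      apply ht.2
      intro z hz
      have h1 := hst (mem_union_right s hz)
      rw [mem_union] at h1
      rcases h1 with h1 | h1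
      · exact absurd h1 (mem_compl.1 hz)
      · exact h1
    · intro hst
      apply hs.2
      intro z hz
      have h1 := hst (mem_union_left t hz)
      rw [mem_union, mem_compl] at h1
      rcases h1 with h1 | h1
      · exact h1
      · exact absurd hz h1
  · have heq : (X.ssubsets.image (fun s => s ∪ Xᶜ)) ⊼ ((Xᶜ).ssubsets.image (fun s => X ∪ s)) =
        (X.ssubsets ×ˢ (Xᶜ).ssubsets).image (fun p => p.1 ∪ p.2) := by
      ext z
      rw [mem_infs, mem_image]
      have hcomb : ∀ s t : Finset (Fin (2 * d + 1)), s ⊆ X → t ⊆ Xᶜ →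
          (s ∪ Xᶜ) ⊓ (X ∪ t) = s ∪ t := by
        intro s t hs ht
        ext w
        rw [inf_eq_inter, mem_inter, mem_union, mem_union, mem_union, mem_compl]
        constructor
        · rintro ⟨h1 | h1, h2 | h2⟩
          · exact Or.inl h1
          · exact Or.inl h1
          · exact absurd h2 h1
          · exact Or.inr h2
        · rintro (h1 | h1)
          · exact ⟨Or.inl h1, Or.inl (hs h1)⟩
          · exact ⟨Or.inr (mem_compl.1 (ht h1)), Or.inr h1⟩
      constructor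
      · rintro ⟨a, ha, b, hb, rfl⟩
        rw [mem_image] at ha hb
        obtain ⟨s, hs, rfl⟩ := ha
        obtain ⟨t, ht, rfl⟩ := hb
        refine ⟨(s, t), mem_product.2 ⟨hs, ht⟩, ?_⟩
        rw [mem_ssubsets] at hs ht
        exact (hcomb s t hs.1 ht.1).symm
      · rintro ⟨⟨s, t⟩, hst, rfl⟩
        rw [mem_product] at hst
        have hs := mem_ssubsets.1 hst.1
        have ht := mem_ssubsets.1 hst.2
        exact ⟨s ∪ Xᶜ, mem_image_of_mem _ hst.1, X ∪ t, mem_image_of_mem _ hst.2,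
          hcomb s t hs.1 ht.1⟩
    have hss : ∀ s : Finset (Fin (2 * d + 1)), s.ssubsets.card = 2 ^ s.card - 1 := by
      intro s
      rw [Finset.ssubsets, card_erase_of_mem (mem_powerset_self s), card_powerset]
    rw [heq, card_image_of_injOn, card_product, hss, hss, hX, hY]
    · have h1 : 1 ≤ 2 ^ d := Nat.one_le_two_pow
      have h2 : 1 ≤ 2 ^ (d + 1) := Nat.one_le_two_pow
      push_cast [h1, h2]
      have hpow : (2 : ℤ) ^ (2 * d + 1) = 2 ^ d * 2 ^ (d + 1) := by
        rw [← pow_add]; congr 1; ring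
      rw [hpow]
      ring
    · rintro ⟨s, t⟩ hst ⟨s', t'⟩ hst' heq
      rw [mem_coe, mem_product] at hst hst'
      have hs := (mem_ssubsets.1 hst.1).1
      have ht := (mem_ssubsets.1 hst.2).1
      have hs' := (mem_ssubsets.1 hst'.1).1
      have ht' := (mem_ssubsets.1 hst'.2).1
      simp only at heq hs ht hs' ht'
      have e1 : ∀ u v : Finset (Fin (2 * d + 1)), u ⊆ X → v ⊆ Xᶜ → (u ∪ v) ∩ X = u := by
        intro u v hu hv
        ext w
        rw [mem_inter, mem_union]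
        constructor
        · rintro ⟨h1 | h1, h2⟩
          · exact h1
          · exact absurd h2 (mem_compl.1 (hv h1))
        · intro h1; exact ⟨Or.inl h1, hu h1⟩
      have e2 : ∀ u v : Finset (Fin (2 * d + 1)), u ⊆ X → v ⊆ Xᶜ → (u ∪ v) ∩ Xᶜ = v := by
        intro u v hu hv
        ext w
        rw [mem_inter, mem_union]
        constructor
        · rintro ⟨h1 | h1, h2⟩
          · exact absurd (hu h1) (mem_compl.1 h2)
          · exact h1
        · intro h1; exact ⟨Or.inr h1, hv h1⟩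
      rw [Prod.mk.injEq]
      constructor
      · rw [← e1 s t hs ht, heq, e1 s' t' hs' ht']
      · rw [← e2 s t hs ht, heq, e2 s' t' hs' ht']

end Pool.Agent.N371.CS
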